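import Pool.Agent.Q257.Champ.Final

/-!
# The doubling orbit of the binary Champernowne number has weak pair correlations

Let `w` be about `(log₂ N) / 16`. The words of `w` binary digits of `α` behind the places `1, …, N` hit every
one of the `2 ^ w` words nearly equally often, in the following strong sense: the sum over the words of the
squares of the deviations is `O(N ^ 2 / (2 ^ w log N))`. In a block of the numbers with `i` digits this follows
from bounds for the number of the collisions between the words at the offsets `t`, `t'` (also those words which
cross the border of two consecutive numbers): it is at most `Y ^ 2 / 2 ^ w + O(Y 2 ^ (i - w - |t - t'|))` for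
crossing words in a block with `Y` numbers. Hence the number of the pairs of places with a given difference of
the words is `N ^ 2 / 2 ^ w (1 + O(1 / log N))`, and the pairs with distance at most `s N ^ (-β)`, `β = 1 / 32`,
are obtained by adding this over the differences up to `s N ^ (-β) 2 ^ w`.
-/

set_option autoImplicit false

namespace Pool.Agent.Results.MP_3b2897_nt.ChampernowneWeakPC

open Q257.Champ

/-- **Theorem.** The sequence `x_n = {2 ^ n α}`, `n ≥ 1`, where `α` is the binary Champernowne number, has
weak pair correlations. -/
theorem result : HasWeakPairCorrelations (fun n => Int.fract ((2 : ℝ) ^ n * champ)) := main

end Pool.Agent.Results.MP_3b2897_nt.ChampernowneWeakPC
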